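import Mathlib
import Pool.Agent.H66.Assemble

open Cardinal Topology

namespace Pool.Agent.Results.MP_451483_gt.PathConnected

universe u

/-- A subset `X` of an abelian group is unconditionally closed if it is closed in every Hausdorff
group topology. -/
def UnconditionallyClosed {G : Type u} [AddCommGroup G] (X : Set G) : Prop :=
  ∀ τ : TopologicalSpace G, @IsTopologicalAddGroup G τ _ → @T2Space G τ → @IsClosed G τ X

/-- An abelian group is an `M`-group if every proper unconditionally closed subgroup has index at
least the continuum. -/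
def IsMGroup (G : Type u) [AddCommGroup G] : Prop :=
  ∀ H : AddSubgroup G, UnconditionallyClosed (H : Set G) → H ≠ ⊤ → 𝔠 ≤ #(G ⧸ H)

/-- **Positive answer to Q1 and Q2.** Every abelian `M`-group carries a Hausdorff group topology
which is pathwise connected and locally pathwise connected. -/
theorem result (G : Type u) [AddCommGroup G] (hG : IsMGroup G) :
    ∃ _ : TopologicalSpace G, IsTopologicalAddGroup G ∧ T2Space G ∧ PathConnectedSpace G ∧
      ∀ (x : G) (U : Set G), IsOpen U → x ∈ U →
        ∃ V : Set G, IsOpen V ∧ x ∈ V ∧ closure V ⊆ U ∧ IsPathConnected (closure V) := by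
  have hmul : ∀ n : ℕ, Pool.Agent.H66.mulG G n = ⊥ ∨ 𝔠 ≤ #(Pool.Agent.H66.mulG G n) := by
    intro n
    set H : AddSubgroup G := (nsmulAddMonoidHom (α := G) n).ker with hH
    have huc : UnconditionallyClosed (H : Set G) := by
      intro τ h1 h2
      have h3 : (H : Set G) = (fun y : G => n • y) ⁻¹' {0} := by
        ext y
        rfl
      rw [h3]
      exact isClosed_singleton.preimage (continuous_nsmul n)
    by_cases htop : H = ⊤
    · left
      rw [eq_bot_iff]
      rintro _ ⟨y, rfl⟩
      have : y ∈ H := by rw [htop]; exact AddSubgroup.mem_top y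
      exact AddSubgroup.mem_bot.2 this
    · right
      refine (hG H huc htop).trans (le_of_eq ?_)
      exact Cardinal.mk_congr
        (QuotientAddGroup.quotientKerEquivRange (nsmulAddMonoidHom (α := G) n)).toEquiv
  obtain ⟨τ, h1, h2, h3, h4⟩ := Pool.Agent.H66.goodTop_of_mulG hmul
  refine ⟨τ, h1, h2, h3, fun x U hU hx => ?_⟩
  obtain ⟨V, hV1, hV2, hV3, hV4⟩ := h4 (Homeomorph.addLeft x ⁻¹' U)
    (hU.preimage (Homeomorph.addLeft x).continuous) (by simpa using hx)
  refine ⟨Homeomorph.addLeft x '' V, (Homeomorph.addLeft x).isOpenMap V hV1,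
    ⟨0, hV2, by simp⟩, ?_, ?_⟩
  · rw [← Homeomorph.image_closure]
    rintro _ ⟨y, hy, rfl⟩
    exact hV3 hy
  · rw [← Homeomorph.image_closure]
    exact hV4.image (Homeomorph.addLeft x).continuous

end Pool.Agent.Results.MP_451483_gt.PathConnected
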